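import Pool.Agent.Cohn.Final

/-!
# The equation `(a ^ n - 1) (b ^ n - 1) = x ^ 2`: the density of the possible `b`

`dens n` is the density of the primes `p` with `gcd (p - 1, n) > 1`, i.e. the proportion
of the classes `a` modulo `n` prime to `n` such that `a - 1` is not prime to `n`.
-/

set_option autoImplicit false

namespace Pool.Agent.Results.MP_4ba7fc_nt.DensityOfB

open Filter

/-- The classes modulo `n` which are prime to `n` and for which `a - 1` is not prime to `n`. -/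
def badClasses (n : ℕ) : Finset ℕ :=
  (Finset.range n).filter fun a => Nat.Coprime a n ∧ ¬ Nat.Coprime (a + n - 1) n

/-- Their proportion among all classes prime to `n`. -/
noncomputable def alpha (n : ℕ) : ℝ := (badClasses n).card / (Nat.totient n : ℝ)

/-- The numbers `b ≤ X` which occur in a solution. -/
def solvable (n X : ℕ) : Set ℕ :=
  {b : ℕ | b ≤ X ∧ ∃ a x : ℕ, 2 ≤ a ∧ a < b ∧ 1 ≤ x ∧ (a ^ n - 1) * (b ^ n - 1) = x ^ 2}

theorem result :
    (∀ n : ℕ, 2 ≤ n → ∀ ε : ℝ, 0 < ε → ∃ X₀ : ℕ, ∀ X : ℕ, X₀ ≤ X →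
      ((solvable n X).ncard : ℝ) ≤
        ((1 / 2 + Real.log 2) * alpha n + alpha n ^ 2 + ε) * X) ∧
    (∀ n : ℕ, n.Prime → alpha n = 1 / ((n : ℝ) - 1)) := by
  classical
  refine ⟨?_, fun n hn => Cohn.dens_prime hn⟩
  intro n hn ε hε
  obtain ⟨X₀, hX₀⟩ := eventually_atTop.1 (Cohn.density_bound hn hε)
  refine ⟨X₀, fun X hX => ?_⟩
  refine le_trans ?_ (hX₀ X hX)
  have hsub : solvable n X ⊆ ((((Finset.Icc 1 X).filter fun b => ∃ a x : ℕ, 2 ≤ a ∧ a < b ∧
      (a ^ n - 1) * (b ^ n - 1) = x ^ 2) : Finset ℕ) : Set ℕ) := by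
    rintro b ⟨hb, a, x, ha, hab, -, hx⟩
    exact Finset.mem_coe.2 (Finset.mem_filter.2
      ⟨Finset.mem_Icc.2 ⟨by omega, hb⟩, a, x, ha, hab, hx⟩)
  have h1 := Set.ncard_le_ncard hsub (Finset.finite_toSet _)
  rw [Set.ncard_coe_finset] at h1
  exact_mod_cast h1

end Pool.Agent.Results.MP_4ba7fc_nt.DensityOfB
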